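import Pool.Agent.Y142.SS.Stm
import Pool.Agent.Y142.ZS.Basic
import Pool.Agent.Y726.ZI.Core
import Pool.Agent.W401.Cheb.Frob
import Pool.Agent.Y971.ZI.Irr

/-!
Project Y142-SS, task CF: global and local Frobenius elements.
-/

set_option autoImplicit false

open Polynomial NumberField IsDedekindDomain
open Pool.Agent.Y142.ZO Pool.Agent.Y142.ZI Pool.Agent.Y142.SS Pool.Agent.Y971.ZI

namespace Pool.Agent.Y297.SS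

theorem norm_le_one (ℓ : ℕ) [Fact ℓ.Prime] (x : AlgebraicClosure ℚ_[ℓ]) (hx : IsIntegral ℤ x) :
    ‖x‖ ≤ 1 := by
  have h1 : IsIntegral (NormedField.valuation (K := PadicAlgCl ℓ)).integer x := hx.tower_top
  have h2 := (Valuation.integer.integers
    (NormedField.valuation (K := PadicAlgCl ℓ))).mem_of_integral h1
  exact_mod_cast h2

/-- the ideal given by an embedding -/
noncomputable def q0 (ℓ : ℕ) [Fact ℓ.Prime] (ι : QQ →+* AlgebraicClosure ℚ_[ℓ]) :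
    Ideal (𝓞 QQ) where
  carrier := {x | ‖ι (x : QQ)‖ < 1}
  add_mem' := by
    intro a b ha hb
    have ha' : ‖ι (a : QQ)‖ < 1 := ha
    have hb' : ‖ι (b : QQ)‖ < 1 := hb
    show ‖ι ((a + b : 𝓞 QQ) : QQ)‖ < 1
    rw [show ((a + b : 𝓞 QQ) : QQ) = (a : QQ) + (b : QQ) from rfl, map_add]
    exact lt_of_le_of_lt (IsUltrametricDist.norm_add_le_max (S := PadicAlgCl ℓ) _ _)
      (max_lt ha' hb')
  zero_mem' := by
    show ‖ι ((0 : 𝓞 QQ) : QQ)‖ < 1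
    rw [show ((0 : 𝓞 QQ) : QQ) = 0 from rfl, map_zero, norm_zero]
    exact zero_lt_one
  smul_mem' := by
    intro c x hx
    have hx' : ‖ι (x : QQ)‖ < 1 := hx
    show ‖ι ((c * x : 𝓞 QQ) : QQ)‖ < 1
    rw [show ((c * x : 𝓞 QQ) : QQ) = (c : QQ) * (x : QQ) from rfl, map_mul, norm_mul]
    have h1 : ‖ι (c : QQ)‖ ≤ 1 := norm_le_one ℓ _ (c.2.map ι.toIntAlgHom)
    exact lt_of_le_of_lt (mul_le_of_le_one_left (norm_nonneg _) h1) hx'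

theorem mem_q0 {ℓ : ℕ} [Fact ℓ.Prime] {ι : QQ →+* AlgebraicClosure ℚ_[ℓ]} {x : 𝓞 QQ} :
    x ∈ q0 ℓ ι ↔ ‖ι (x : QQ)‖ < 1 := Iff.rfl

theorem q0_prime (ℓ : ℕ) [Fact ℓ.Prime] (ι : QQ →+* AlgebraicClosure ℚ_[ℓ]) :
    (q0 ℓ ι).IsPrime := by
  refine ⟨?_, ?_⟩
  · rw [Ideal.ne_top_iff_one, mem_q0, show ((1 : 𝓞 QQ) : QQ) = 1 from rfl, map_one, norm_one]
    exact lt_irrefl _
  · intro x y hxy
    by_contra hcon
    rw [not_or, mem_q0, mem_q0, not_lt, not_lt] at hcon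
    rw [mem_q0, show ((x * y : 𝓞 QQ) : QQ) = (x : QQ) * (y : QQ) from rfl, map_mul,
      norm_mul] at hxy
    have := one_le_mul_of_one_le_of_one_le hcon.1 hcon.2
    linarith

theorem l_mem_q0 (ℓ : ℕ) [hℓ : Fact ℓ.Prime] (ι : QQ →+* AlgebraicClosure ℚ_[ℓ]) :
    (ℓ : 𝓞 QQ) ∈ q0 ℓ ι := by
  rw [mem_q0, show (((ℓ : 𝓞 QQ)) : QQ) = (ℓ : QQ) from map_natCast (algebraMap (𝓞 QQ) QQ) ℓ,
    map_natCast]
  have h1 : ((ℓ : ℕ) : AlgebraicClosure ℚ_[ℓ]) =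
      algebraMap ℚ_[ℓ] (AlgebraicClosure ℚ_[ℓ]) (ℓ : ℚ_[ℓ]) := (map_natCast _ _).symm
  rw [h1]
  have h2 : ‖algebraMap ℚ_[ℓ] (AlgebraicClosure ℚ_[ℓ]) (ℓ : ℚ_[ℓ])‖ = ‖(ℓ : ℚ_[ℓ])‖ :=
    PadicAlgCl.norm_extends ℓ _
  rw [h2]
  exact Padic.norm_p_lt_one

theorem q0_max (ℓ : ℕ) [hℓ : Fact ℓ.Prime] (ι : QQ →+* AlgebraicClosure ℚ_[ℓ]) :
    (q0 ℓ ι).IsMaximal := by
  have := q0_prime ℓ ι
  refine Ideal.isMaximal_of_isIntegral_of_isMaximal_comap (R := ℤ) (q0 ℓ ι) ?_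
  have h1 : ((q0 ℓ ι).comap (algebraMap ℤ (𝓞 QQ))).IsPrime := inferInstance
  refine h1.isMaximal ?_
  intro h2
  have h3 : (ℓ : ℤ) ∈ (q0 ℓ ι).comap (algebraMap ℤ (𝓞 QQ)) := by
    rw [Ideal.mem_comap, map_natCast]
    exact l_mem_q0 ℓ ι
  rw [h2, Ideal.mem_bot] at h3
  exact hℓ.out.ne_zero (by exact_mod_cast h3)

theorem frob0 (ℓ : ℕ) [Fact ℓ.Prime] (ι : QQ →+* AlgebraicClosure ℚ_[ℓ])
    (τ : AlgebraicClosure ℚ_[ℓ] ≃ₐ[ℚ_[ℓ]] AlgebraicClosure ℚ_[ℓ])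
    (hτ : ∀ x : AlgebraicClosure ℚ_[ℓ], ‖x‖ ≤ 1 → ‖τ x - x ^ ℓ‖ < 1) (σ : GK ℚ)
    (hσ : ∀ x : QQ, τ (ι x) = ι (σ x)) : FrobAt ℓ σ := by
  refine ⟨q0 ℓ ι, q0_max ℓ ι, l_mem_q0 ℓ ι, fun x => ?_⟩
  rw [mem_q0]
  have h1 : (((σ • x - x ^ ℓ : 𝓞 QQ)) : QQ) = σ (x : QQ) - (x : QQ) ^ ℓ := rfl
  rw [h1, map_sub, map_pow, ← hσ]
  exact hτ _ (norm_le_one ℓ _ (x.2.map ι.toIntAlgHom))

theorem inert_fix {P a b : ℤ[X]} {N : ℤ} (hab : a * P + b * derivative P = C N) (hN : N ≠ 0)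
    {ℓ : ℕ} (hℓ : ℓ.Prime) (hlt : N.natAbs < ℓ) (g : GK ℚ) (𝔮 : Ideal (𝓞 QQ)) (h𝔮 : 𝔮.IsPrime)
    (hℓq : (ℓ : 𝓞 QQ) ∈ 𝔮) (hg : ∀ x : 𝓞 QQ, g • x - x ∈ 𝔮) (w : 𝓞 QQ) (hw : aeval w P = 0) :
    g • w = w := by
  by_contra hne
  have hw' : aeval (g • w) P = 0 := by
    have h1 := hom_eval₂ P (algebraMap ℤ (𝓞 QQ))
      (MulSemiringAction.toRingHom (GK ℚ) (𝓞 QQ) g) w
    rw [RingHom.ext_int ((MulSemiringAction.toRingHom (GK ℚ) (𝓞 QQ) g).comp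
      (algebraMap ℤ (𝓞 QQ))) (algebraMap ℤ (𝓞 QQ))] at h1
    have h2 : eval₂ (algebraMap ℤ (𝓞 QQ)) w P = 0 := hw
    rw [h2, map_zero] at h1
    exact h1.symm
  have h1 : (P.map (algebraMap ℤ (𝓞 QQ))).IsRoot w := by
    rw [IsRoot.def, eval_map]
    exact hw
  obtain ⟨G, hG⟩ := dvd_iff_isRoot.2 h1
  have h2 : eval (g • w) G = 0 := by
    have h3 : eval (g • w) (P.map (algebraMap ℤ (𝓞 QQ))) = 0 := by
      rw [eval_map]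
      exact hw'
    rw [hG, eval_mul, eval_sub, eval_X, eval_C] at h3
    exact (mul_eq_zero.1 h3).resolve_left (sub_ne_zero.2 hne)
  have h3 : eval (g • w) (derivative (P.map (algebraMap ℤ (𝓞 QQ)))) ∈ 𝔮 := by
    rw [hG, derivative_mul, derivative_sub, derivative_X, derivative_C, sub_zero, one_mul,
      eval_add, h2, zero_add, eval_mul, eval_sub, eval_X, eval_C]
    exact 𝔮.mul_mem_right _ (hg w)
  have h4 : ((N : ℤ) : 𝓞 QQ) ∈ 𝔮 := by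
    have h5 := congrArg (fun r : ℤ[X] => eval (g • w) (r.map (algebraMap ℤ (𝓞 QQ)))) hab
    have h6 : eval (g • w) (P.map (algebraMap ℤ (𝓞 QQ))) = 0 := by
      rw [eval_map]
      exact hw'
    simp only [Polynomial.map_add, Polynomial.map_mul, ← Polynomial.derivative_map, eval_add,
      eval_mul, h6, mul_zero, zero_add, Polynomial.map_C, eval_C] at h5
    rw [eq_intCast] at h5
    rw [← h5]
    exact 𝔮.mul_mem_left _ h3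
  have hcop : IsCoprime N (ℓ : ℤ) := by
    rw [Int.isCoprime_iff_gcd_eq_one, Int.gcd, Int.natAbs_natCast]
    exact (Nat.coprime_comm.1 ((Nat.Prime.coprime_iff_not_dvd hℓ).2 fun h =>
      absurd (Nat.le_of_dvd (Int.natAbs_pos.2 hN) h) (by omega)))
  obtain ⟨u, v, huv⟩ := hcop
  apply h𝔮.ne_top
  rw [Ideal.eq_top_iff_one]
  have h5 : (1 : 𝓞 QQ) = (u : 𝓞 QQ) * (N : 𝓞 QQ) + (v : 𝓞 QQ) * (ℓ : 𝓞 QQ) := by
    exact_mod_cast congrArg (fun z : ℤ => (z : 𝓞 QQ)) huv.symm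
  rw [h5]
  exact 𝔮.add_mem (𝔮.mul_mem_left _ h4) (𝔮.mul_mem_left _ hℓq)

/-- **Task CF.** -/
theorem t (hLF : S_LF) : S_CF := by
  intro Q hQm hQs
  obtain ⟨D, hD0, P, hPm, hP⟩ := exists_scale Q hQm
  have hDQ : (D : ℚ) ≠ 0 := by exact_mod_cast hD0.ne'
  have hDQQ : (D : QQ) ≠ 0 := by exact_mod_cast hD0.ne'
  have hPsep : (P.map (Int.castRingHom ℚ)).Separable := by
    rw [hP, separable_def, derivative_scale Q _]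
    exact isCoprime_scaleRoots _ _ _ (isUnit_iff_ne_zero.mpr hDQ) hQs
  obtain ⟨N, hN0, a, b, hab⟩ := sep_bound P hPsep
  refine ⟨N.natAbs, ?_⟩
  intro ℓ hℓ hfact σ hfrob
  have hℓp : ℓ.Prime := hfact.out
  have key' : ∀ x : QQ, aeval x Q = 0 → ∃ w : 𝓞 QQ, (w : QQ) = D * x ∧ aeval (w : QQ) P = 0 := by
    intro x hx
    have h3 := scaleRoots_eval₂_mul (p := Q) (algebraMap ℚ QQ) x (D : ℚ)
    rw [← hP, map_natCast, eval₂_map] at h3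
    have h5 : eval₂ (algebraMap ℚ QQ) x Q = 0 := hx
    rw [h5, mul_zero] at h3
    have h4 : aeval ((D : QQ) * x) P = 0 := by
      rw [RingHom.ext_int ((algebraMap ℚ QQ).comp (Int.castRingHom ℚ)) (algebraMap ℤ QQ)] at h3
      exact h3
    exact ⟨⟨(D : QQ) * x, P, hPm, h4⟩, rfl, h4⟩
  obtain ⟨ι₀⟩ := emb ℓ
  obtain ⟨τ, hτ⟩ := hLF ℓ
  obtain ⟨σ₀, hσ₀⟩ := Pool.Agent.Y142.ZS.restrict0 ℓ ι₀ τ
  have hF0 := (Pool.Agent.Y726.ZI.frobAt_iff hℓp σ₀).1 (frob0 ℓ ι₀ τ hτ σ₀ hσ₀)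
  obtain ⟨ρ, i, hi, hσ⟩ := Pool.Agent.W401.Frob.conj_frob (Pool.Agent.Y726.ZI.pv ℓ hℓp) σ₀ σ
    hF0 ((Pool.Agent.Y726.ZI.frobAt_iff hℓp σ).1 hfrob)
  refine ⟨ι₀.comp ((ρ⁻¹ : GK ℚ) : QQ →+* QQ), τ, ρ * σ₀ * ρ⁻¹, ?_, ?_, ?_⟩
  · exact (Pool.Agent.Y726.ZI.frobAt_iff hℓp _).2
      ((Pool.Agent.W401.Frob.main ℚ).2.2 _ _ _ hF0)
  · intro x
    show τ (ι₀ ((ρ⁻¹ : GK ℚ) x)) = ι₀ ((ρ⁻¹ : GK ℚ) ((ρ * σ₀ * ρ⁻¹) x))
    rw [hσ₀]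
    congr 1
    rw [← AlgEquiv.mul_apply ρ⁻¹ (ρ * σ₀ * ρ⁻¹) x, ← mul_assoc, ← mul_assoc, inv_mul_cancel,
      one_mul]
    rfl
  · intro x hx
    obtain ⟨w, hwx, hw⟩ := key' x hx
    obtain ⟨𝔮, h𝔮, h𝔮v, hi'⟩ := hi
    have hℓq : (ℓ : 𝓞 QQ) ∈ 𝔮 := by
      have h1 : (ℓ : 𝓞 ℚ) ∈ (Pool.Agent.Y726.ZI.pv ℓ hℓp).asIdeal :=
        Ideal.mem_span_singleton_self _
      rw [← h𝔮v, Ideal.mem_comap, map_natCast] at h1
      exact h1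
    have hwP : aeval w P = 0 := by
      apply RingOfIntegers.coe_injective
      rw [map_zero, ← hw]
      exact (aeval_algebraMap_apply QQ w P).symm
    have h1 := inert_fix hab hN0 hℓp hℓ i 𝔮 h𝔮.isPrime hℓq hi' w hwP
    have h2 : i (w : QQ) = (w : QQ) := congrArg (fun z : 𝓞 QQ => (z : QQ)) h1
    rw [hwx, map_mul, map_natCast] at h2
    have h3 : i x = x := mul_left_cancel₀ hDQQ h2
    rw [hσ, AlgEquiv.mul_apply (ρ * σ₀ * ρ⁻¹) i x, h3]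

end Pool.Agent.Y297.SS
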